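import Mathlib

set_option autoImplicit false

namespace Pool.Agent.H.MP_41ff45_gt

open Set Filter Topology

def KC {X : Type} [TopologicalSpace X] (𝒰 : Set (Set X)) : Prop :=
  (∀ U ∈ 𝒰, IsOpen U) ∧ ⋃₀ 𝒰 = univ ∧ ∀ K, IsCompact K → ∃ U ∈ 𝒰, K ⊆ U

def L : ℕ → Type
  | 0 => ℕ → ℕ
  | n + 1 => {p : Ultrafilter (L n) // (p : Filter (L n)) ≤ cofinite}

def X : Type := Σ n, L n

noncomputable def φ : X → Ultrafilter X
  | ⟨0, y⟩ => pure ⟨0, y⟩
  | ⟨n + 1, p⟩ => p.1.map (Sigma.mk n)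

lemma φ_cases : ∀ x : X, φ x = pure x ∨
    ((∀ᶠ y : X in φ x, y.1 < x.1) ∧ (φ x : Filter X) ≤ cofinite)
  | ⟨0, _⟩ => Or.inl rfl
  | ⟨n + 1, p⟩ => Or.inr ⟨eventually_map.2 (.of_forall fun _ => n.lt_succ_self),
      (map_mono p.2).trans sigma_mk_injective.tendsto_cofinite⟩

lemma φ_surj {n : ℕ} {p : Ultrafilter X} (h : {y | y.1 = n} ∈ p) (h' : (p : Filter X) ≤ cofinite) :
    ∃ x, φ x = p := by
  have h1 : range (Sigma.mk n) ∈ p := by rwa [range_sigmaMk]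
  exact ⟨⟨n + 1, p.comap sigma_mk_injective h1, (comap_mono h').trans
    sigma_mk_injective.comap_cofinite_eq.le⟩, Ultrafilter.coe_injective (map_comap_of_mem h1)⟩

instance : TopologicalSpace X where
  IsOpen U := ∀ x ∈ U, U ∈ φ x
  isOpen_univ _ _ := univ_mem
  isOpen_inter _ _ h h' x hx := inter_mem (h x hx.1) (h' x hx.2)
  isOpen_sUnion _ h := fun x ⟨U, h1, h2⟩ => mem_of_superset (h U h1 x h2) (subset_sUnion_of_mem h1)

instance : T1Space X := ⟨fun x => ⟨fun y h => (φ_cases y).elim (fun e => e ▸ h)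
  fun h' => h'.2 (finite_singleton x).compl_mem_cofinite⟩⟩

lemma open_lt (x : X) {j : ℕ} (h : x.1 ≤ j) : IsOpen (insert x {y | y.1 < j}) := fun y hy =>
  (φ_cases y).elim (fun e => e ▸ hy) fun h' => h'.1.mono fun _ h1 => Or.inr
    (h1.trans_le (hy.elim (fun e => e ▸ h) fun h => le_of_lt h))

lemma cl_le {T : Set X} {j : ℕ} (hT : ∀ y ∈ T, y.1 = j) {x : X} (h : x ∈ closure T)
    (h' : x.1 ≤ j) : x ∈ T := by
  obtain ⟨y, rfl | h1, h2⟩ := mem_closure_iff.1 h _ (open_lt x h') (Or.inl rfl)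
  exacts [h2, (h1.ne (hT y h2)).elim]

lemma cl_mem {T : Set X} {x : X} (h : x ∈ closure T) (h' : x ∉ T) : closure T ∈ φ x := by
  by_contra h1
  obtain ⟨y, rfl | h2, h3⟩ := mem_closure_iff.1 h (insert x (closure T)ᶜ) (by
    rintro y (rfl | hy)
    exacts [mem_of_superset (Ultrafilter.compl_mem_iff_notMem.2 h1) (subset_insert _ _),
      mem_of_superset (isClosed_closure (s := T).1 y hy) (subset_insert _ _)]) (Or.inl rfl)
  exacts [h' h3, h2 (subset_closure h3)]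

lemma disj {S T : Set X} {j : ℕ} (hS : ∀ y ∈ S, y.1 = j) (hT : ∀ y ∈ T, y.1 = j)
    (h : Disjoint S T) (x : X) (h1 : x ∈ closure S) : x ∉ closure T := by
  induction hn : x.1 using Nat.strong_induction_on generalizing x with
  | _ n ih =>
    intro h2
    by_cases h3 : x.1 ≤ j
    · exact disjoint_left.1 h (cl_le hS h1 h3) (cl_le hT h2 h3)
    obtain h4 | h4 := φ_cases x
    · obtain ⟨_, rfl, h5⟩ := mem_closure_iff.1 h1 {x} (by rintro _ rfl; exact h4 ▸ rfl) rfl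
      exact h3 (hS _ h5).le
    obtain ⟨y, h5, h6, h7⟩ := (h4.1.and (inter_mem (cl_mem h1 fun h => h3 (hS _ h).le)
      (cl_mem h2 fun h => h3 (hT _ h).le))).exists
    exact ih _ (hn ▸ h5) y h6 rfl h7

lemma fin {K : Set X} (hK : IsCompact K) : K.Finite := by
  obtain ⟨m, hm⟩ : ∃ m, K ⊆ {y | y.1 < m} := hK.elim_directed_cover _ (fun m y hy =>
    (φ_cases y).elim (fun e => e ▸ hy) fun h' => h'.1.mono fun _ h1 => h1.trans hy)
    (fun y _ => mem_iUnion.2 ⟨_, y.1.lt_succ_self⟩)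
    (Monotone.directed_le fun _ _ h _ h' => h'.trans_le h)
  suffices ∀ j ≤ m, {y ∈ K | j ≤ y.1}.Finite by simpa using this 0 m.zero_le
  intro j hj
  induction hj using Nat.decreasingInduction with
  | self => exact finite_empty.subset fun y h => (hm h.1).not_ge h.2
  | of_succ j _ ih =>
    refine (ih.union (t := {y ∈ K | y.1 = j}) (by_contra fun h => ?_)).subset fun y h =>
      h.2.eq_or_lt.elim (fun e => Or.inr ⟨h.1, e.symm⟩) fun e => Or.inl ⟨h.1, e⟩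
    let a := (Denumerable.eqv (ℕ × ℕ)).toEmbedding.trans (Set.Infinite.natEmbedding _ h)
    have h1 (i : ℕ) : ∀ y ∈ range fun k => (a (i, k)).1, y.1 = j :=
      forall_mem_range.2 fun k => (a (i, k)).2.2
    have h2 (i : ℕ) : ∃ x ∈ {y ∈ K | j + 1 ≤ y.1}, x ∈ closure (range fun k => (a (i, k)).1) := by
      obtain ⟨x, h2, h3⟩ := Infinite.exists_accPt_of_subset_isCompact (infinite_range_of_injective
        fun k l e => (Prod.mk.inj (a.injective (Subtype.ext e))).2) hK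
          (range_subset_iff.2 fun k => (a (i, k)).2.1)
      refine ⟨x, ⟨h2, by_contra fun h4 => ?_⟩, h3.clusterPt.mem_closure⟩
      obtain ⟨y, ⟨h5, h6⟩, h7⟩ := accPt_iff_nhds.1 h3 _
        ((open_lt x (Nat.le_of_not_lt h4)).mem_nhds (Or.inl rfl))
      exact (h5.resolve_left h7).ne (h1 i y h6)
    choose x h2 h3 using h2
    refine infinite_of_injective_forall_mem (f := x) (fun i l e => by_contra fun h4 => disj (h1 i) (h1 l)
      (disjoint_range_iff.2 fun _ _ e => h4 (Prod.mk.inj (a.injective (Subtype.ext e))).1) _ (h3 i)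
      (e ▸ h3 l)) h2 ih

lemma conv {n : ℕ} {p : Ultrafilter X} (h : {y | y.1 ≤ n} ∈ p) : ∃ x, (p : Filter X) ≤ 𝓝 x := by
  obtain h1 | ⟨x, rfl⟩ := p.le_cofinite_or_eq_pure
  · obtain ⟨j, -, h2⟩ := (Ultrafilter.finite_biUnion_mem_iff (finite_le_nat n)
      (s := fun j => {y : X | y.1 = j})).1 (mem_of_superset h fun y h => mem_biUnion h rfl)
    obtain ⟨x, rfl⟩ := φ_surj h2 h1
    exact ⟨x, le_nhds_iff.2 fun U h h' => h' x h⟩
  · exact ⟨x, pure_le_nhds x⟩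

theorem markov : ∃ σ : Set (Set X) → ℕ → Set (Set X), (∀ 𝒰 n, KC 𝒰 → (σ 𝒰 n).Finite ∧ σ 𝒰 n ⊆ 𝒰) ∧
    ∀ 𝒰 : ℕ → Set (Set X), (∀ n, KC (𝒰 n)) → KC (⋃ n, σ (𝒰 n) n) := by
  have h1 (𝒰 : Set (Set X)) (n : ℕ) : ∃ F : Set (Set X), KC 𝒰 → (F.Finite ∧ F ⊆ 𝒰) ∧
      ∀ k ≤ n, ∀ G : Fin k → X, (∀ i, (G i).1 ≤ n) → ∃ U ∈ F, range G ⊆ U := by
    by_cases h : KC 𝒰
    swap
    · exact ⟨∅, fun h' => (h h').elim⟩
    suffices ∀ k, ∃ F : Set (Set X), (F.Finite ∧ F ⊆ 𝒰) ∧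
        ∀ G : Fin k → X, (∀ i, (G i).1 ≤ n) → ∃ U ∈ F, range G ⊆ U by
      choose F h1 h2 using this
      exact ⟨⋃ k ≤ n, F k, fun _ => ⟨⟨(finite_le_nat n).biUnion fun k _ => (h1 k).1,
        iUnion₂_subset fun k _ => (h1 k).2⟩, fun k hk G hG =>
          (h2 k G hG).imp fun _ h => ⟨mem_biUnion hk h.1, h.2⟩⟩⟩
    intro k
    by_contra! h1
    have : Nonempty {F : Set (Set X) // F.Finite ∧ F ⊆ 𝒰} := ⟨⟨∅, finite_empty, empty_subset _⟩⟩
    have : IsDirectedOrder {F : Set (Set X) // F.Finite ∧ F ⊆ 𝒰} := ⟨fun F F' => ⟨⟨F.1 ∪ F'.1,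
      F.2.1.union F'.2.1, union_subset F.2.2 F'.2.2⟩, subset_union_left, subset_union_right⟩⟩
    choose G h2 h3 using fun F : {F : Set (Set X) // F.Finite ∧ F ⊆ 𝒰} => h1 F.1 F.2
    choose x hx using fun i => conv (p := (Ultrafilter.of atTop).map (G · i)) (n := n)
      (mem_map.2 (univ_mem' fun F => h2 F i))
    obtain ⟨U, h4, h5⟩ := h.2.2 _ (finite_range x).isCompact
    obtain ⟨F, h6, h7⟩ := ((eventually_all.2 fun i => hx i ((h.1 U h4).mem_nhds (h5 ⟨i, rfl⟩))).and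
      (Ultrafilter.of_le _ (eventually_ge_atTop ⟨{U}, finite_singleton U,
        singleton_subset_iff.2 h4⟩))).exists
    exact h3 F U (h7 rfl) (range_subset_iff.2 h6)
  choose σ h1 using h1
  refine ⟨σ, fun 𝒰 n h => (h1 𝒰 n h).1, fun 𝒰 h => ?_⟩
  have h2 (K : Set X) (hK : IsCompact K) : ∃ U ∈ ⋃ n, σ (𝒰 n) n, K ⊆ U := by
    obtain ⟨k, G, -, rfl⟩ := (fin hK).fin_param
    obtain ⟨m, hm⟩ := (finite_range fun i => (G i).1).bddAbove
    exact ((h1 _ _ (h (max k m))).2 k (le_max_left _ _) G fun i =>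
      le_max_of_le_right (hm ⟨i, rfl⟩)).imp fun _ h => ⟨mem_iUnion.2 ⟨_, h.1⟩, h.2⟩
  exact ⟨fun U hU => (mem_iUnion.1 hU).elim fun n hn => (h n).1 U ((h1 _ n (h n)).1.2 hn),
    eq_univ_of_forall fun x => (h2 _ isCompact_singleton).imp fun _ h => ⟨h.1, h.2 rfl⟩, h2⟩

noncomputable def tr : ∀ n, L n → Ultrafilter (ℕ → ℕ)
  | 0, y => pure y
  | n + 1, p => p.1.bind (tr n)

theorem not_roth : ∃ 𝒰 : ℕ → Set (Set X), (∀ n, KC (𝒰 n)) ∧
    ∀ U : ℕ → Set X, (∀ n, U n ∈ 𝒰 n) → ¬ KC (range U) := by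
  refine ⟨fun n => range fun k => {x | {y | y n ≠ k} ∈ tr x.1 x.2}, fun n => ?_, fun U h1 h2 => ?_⟩
  · have h (K : Set X) (hK : IsCompact K) : ∃ k, K ⊆ {x | {y | y n ≠ k} ∈ tr x.1 x.2} := by
      obtain ⟨k, hk⟩ := ((fin hK).biUnion fun x _ => Subsingleton.finite
        (s := {k | {y | y n = k} ∈ tr x.1 x.2}) fun k h l h' => by
          obtain ⟨y, h1, h2⟩ := Filter.nonempty_of_mem (inter_mem h h')
          exact Eq.trans (Eq.symm h1) h2).exists_notMem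
      exact ⟨k, fun x hx => Ultrafilter.compl_mem_iff_notMem.2 fun h => hk (mem_biUnion hx h)⟩
    exact ⟨forall_mem_range.2 fun k => fun | ⟨0, _⟩, h => h | ⟨_ + 1, _⟩, h => h,
      eq_univ_of_forall fun x => (h _ isCompact_singleton).elim fun k h => ⟨_, ⟨k, rfl⟩, h rfl⟩,
      fun K hK => (h K hK).elim fun k h => ⟨_, ⟨k, rfl⟩, h⟩⟩
  choose k hk using h1
  obtain ⟨_, ⟨n, rfl⟩, h⟩ := eq_univ_iff_forall.1 h2.2.1 ⟨0, k⟩
  rw [← hk n] at h
  exact h rfl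

end Pool.Agent.H.MP_41ff45_gt
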